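import Pool.Agent.Helper8.Kak.DefsD

/-!
# Analytic sets have the Baire property (module D1, problem MP_013a6c_an)
-/

open MeasureTheory Set Topology Filter
open scoped symmDiff ENNReal ProbabilityTheory

namespace KakC

/-- the cylinder of sequences whose reversed initial segment is `σ` -/
private def D1cyl (σ : List ℕ) : Set (ℕ → ℕ) := {b | PiNat.res b σ.length = σ}

private theorem D1cyl_cons (σ : List ℕ) : D1cyl σ = ⋃ n, D1cyl (n :: σ) := by
  ext b
  simp only [D1cyl, mem_setOf_eq, mem_iUnion, List.length_cons, PiNat.res_succ, List.cons.injEq]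
  constructor
  · intro h
    exact ⟨b σ.length, rfl, h⟩
  · rintro ⟨n, -, h⟩
    exact h

section

variable {α : Type*} [TopologicalSpace α] [SecondCountableTopology α]

/-- union of the basic open sets in which `A` is meager -/
private def D1V (A : Set α) : Set α :=
  ⋃ U ∈ {U | U ∈ TopologicalSpace.countableBasis α ∧ IsMeagre (A ∩ U)}, U

private theorem D1V_open (A : Set α) : IsOpen (D1V A) := by
  refine isOpen_biUnion ?_
  rintro U ⟨hU, -⟩
  exact TopologicalSpace.isOpen_of_mem_countableBasis hU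

private theorem D1V_meagre (A : Set α) : IsMeagre (A ∩ D1V A) := by
  have hc : {U | U ∈ TopologicalSpace.countableBasis α ∧ IsMeagre (A ∩ U)}.Countable :=
    (TopologicalSpace.countable_countableBasis α).mono (fun U hU => hU.1)
  rw [D1V, inter_iUnion₂]
  refine isMeagre_biUnion hc ?_
  rintro U ⟨-, hU⟩
  exact hU

private theorem D1_subset_V {A U : Set α} (hU : U ∈ TopologicalSpace.countableBasis α)
    (h : IsMeagre (A ∩ U)) : U ⊆ D1V A := by
  intro x hx
  simp only [D1V, mem_iUnion]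
  exact ⟨U, ⟨hU, h⟩, hx⟩

private def D1H (A : Set α) : Set α := closure A \ D1V A

private theorem D1H_closed (A : Set α) : IsClosed (D1H A) :=
  isClosed_closure.sdiff (D1V_open A)

private theorem D1_step [BaireSpace α] (A : Set α) (B : ℕ → Set α) (hA : A = ⋃ n, B n) :
    IsMeagre (D1H A \ ⋃ n, D1H (B n)) := by
  borelize α
  set D := D1H A \ ⋃ n, D1H (B n) with hD
  have hDm : MeasurableSet D :=
    (D1H_closed A).measurableSet.diff
      (MeasurableSet.iUnion fun n => (D1H_closed (B n)).measurableSet)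
  obtain ⟨O, hO, hDO⟩ := hDm.residualEq_isOpen
  rcases O.eq_empty_or_nonempty with rfl | ⟨y, hy⟩
  · rw [IsMeagre]
    filter_upwards [hDO.mem_iff] with x hx
    simpa using hx
  exfalso
  obtain ⟨U, hU, hyU, hUO⟩ :=
    (TopologicalSpace.isBasis_countableBasis α).exists_subset_of_mem_open hy hO
  have hUD : ∀ᶠ x in residual α, x ∈ U → x ∈ D := by
    filter_upwards [hDO.mem_iff] with x hx hxU
    exact hx.2 (hUO hxU)
  have hB : ∀ n, IsMeagre (B n ∩ U) := by
    intro n
    have h1 : IsMeagre (D1H (B n) ∩ U) := by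
      rw [IsMeagre]
      filter_upwards [hUD] with x hx hx'
      exact (hx hx'.2).2 (mem_iUnion.2 ⟨n, hx'.1⟩)
    refine (h1.union (D1V_meagre (B n))).mono ?_
    rintro x ⟨hxB, hxU⟩
    by_cases hxV : x ∈ D1V (B n)
    · exact Or.inr ⟨hxB, hxV⟩
    · exact Or.inl ⟨⟨subset_closure hxB, hxV⟩, hxU⟩
  have hAU : IsMeagre (A ∩ U) := by
    rw [hA, iUnion_inter]
    exact isMeagre_iUnion hB
  have hUV := D1_subset_V hU hAU
  have hUm : IsMeagre U := by
    rw [IsMeagre]
    filter_upwards [hUD] with x hx hxU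
    exact (hx hxU).1.2 (hUV hxU)
  exact not_isMeagre_of_isOpen (TopologicalSpace.isOpen_of_mem_countableBasis hU) ⟨y, hyU⟩ hUm

end

/-- Module D1. Analytic sets have the Baire property. -/
theorem analytic_baire {α : Type*} [TopologicalSpace α] [PolishSpace α] {s : Set α}
    (hs : AnalyticSet s) : BaireMeasurableSet s := by
  rw [AnalyticSet] at hs
  rcases hs with rfl | ⟨f, hf, rfl⟩
  · exact isOpen_empty.baireMeasurableSet
  set A : List ℕ → Set α := fun σ => f '' D1cyl σ with hA
  have hAc : ∀ σ, A σ = ⋃ n, A (n :: σ) := by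
    intro σ
    simp only [hA]
    rw [D1cyl_cons, image_iUnion]
  have hA0 : A [] = range f := by
    simp only [hA]
    have : D1cyl [] = univ := by
      ext b
      simp [D1cyl]
    rw [this, image_univ]
  have hE1 : IsMeagre (⋃ σ, (A σ ∩ D1V (A σ))) := isMeagre_iUnion fun σ => D1V_meagre _
  have hE2 : IsMeagre (⋃ σ, (D1H (A σ) \ ⋃ n, D1H (A (n :: σ)))) :=
    isMeagre_iUnion fun σ => D1_step _ _ (hAc σ)
  have hE := hE1.union hE2
  refine (D1H_closed (A [])).isOpen_compl.baireMeasurableSet.of_compl.congr ?_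
  rw [IsMeagre] at hE
  rw [Filter.eventuallyEq_set]
  filter_upwards [hE] with x hx
  have hx1 : ∀ σ, x ∈ A σ → x ∉ D1V (A σ) := by
    intro σ h1 h2
    exact hx (Or.inl (mem_iUnion.2 ⟨σ, h1, h2⟩))
  have hx2 : ∀ σ, x ∈ D1H (A σ) → ∃ n, x ∈ D1H (A (n :: σ)) := by
    intro σ h1
    by_contra h2
    push Not at h2
    exact hx (Or.inr (mem_iUnion.2 ⟨σ, h1, by simpa using h2⟩))
  constructor
  · intro hxH
    have hx3 : ∀ σ, ∃ n, x ∈ D1H (A σ) → x ∈ D1H (A (n :: σ)) := by
      intro σ
      by_cases h : x ∈ D1H (A σ)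
      · obtain ⟨n, hn⟩ := hx2 σ h
        exact ⟨n, fun _ => hn⟩
      · exact ⟨0, fun h' => absurd h' h⟩
    choose nx hnx using hx3
    let g : ℕ → List ℕ := fun m => Nat.rec [] (fun _ σ => nx σ :: σ) m
    have hg0 : g 0 = [] := rfl
    have hg1 : ∀ m, g (m + 1) = nx (g m) :: g m := fun m => rfl
    let β : ℕ → ℕ := fun m => nx (g m)
    have hgβ : ∀ m, PiNat.res β m = g m := by
      intro m
      induction m with
      | zero => rfl
      | succ m ih => rw [PiNat.res_succ, ih, hg1]
    have hgH : ∀ m, x ∈ D1H (A (g m)) := by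
      intro m
      induction m with
      | zero => exact hxH
      | succ m ih => rw [hg1]; exact hnx _ ih
    refine ⟨β, ?_⟩
    by_contra hne
    have hmem : ({x}ᶜ : Set α) ∈ 𝓝 (f β) := isOpen_compl_singleton.mem_nhds hne
    obtain ⟨W, ⟨hW1, hW2⟩, hW3⟩ := (closed_nhds_basis (f β)).mem_iff.1 hmem
    have hpre : f ⁻¹' W ∈ 𝓝 β := hf.continuousAt hW1
    obtain ⟨T, hT1, hT2⟩ := mem_nhds_iff.1 hpre
    obtain ⟨_, ⟨y, m, rfl⟩, hβ, hsub⟩ :=
      (PiNat.isTopologicalBasis_cylinders (E := fun _ : ℕ => ℕ)).exists_subset_of_mem_open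
        hT2.2 hT2.1
    have h1 : A (g m) ⊆ W := by
      rintro _ ⟨b, hb, rfl⟩
      have hb' : b ∈ PiNat.cylinder y m := by
        rw [PiNat.cylinder_eq_res] at hβ ⊢
        simp only [mem_setOf_eq] at hβ ⊢
        rw [← hβ, hgβ]
        have hb2 : PiNat.res b (g m).length = g m := hb
        rw [← hgβ m, PiNat.res_length] at hb2
        rw [hb2, hgβ]
      exact hT1 (hsub hb')
    have h2 : x ∈ W := (closure_minimal h1 hW2) (hgH m).1
    exact hW3 h2 rfl
  · intro hxs
    rw [← hA0] at hxs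
    exact ⟨subset_closure hxs, hx1 [] hxs⟩

end KakC
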