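import Pool.Agent.Helper8.Kak.DefsD

/-!
# The Polish group `S_∞` (module D3, problem MP_013a6c_an)
-/

open MeasureTheory Set Topology Filter
open scoped symmDiff ENNReal ProbabilityTheory

namespace KakC

private theorem D3_emb : IsEmbedding (fun σ : Equiv.Perm ℕ => (σ : ℕ → ℕ)) :=
  ⟨⟨rfl⟩, fun _ _ h => Equiv.coe_fn_injective h⟩

private theorem D3_cont : Continuous (fun σ : Equiv.Perm ℕ => (σ : ℕ → ℕ)) :=
  D3_emb.continuous

private theorem D3_cont_apply (i : ℕ) : Continuous (fun σ : Equiv.Perm ℕ => σ i) :=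
  (continuous_apply i).comp D3_cont

private theorem D3_open (i j : ℕ) : IsOpen {σ : Equiv.Perm ℕ | σ i = j} :=
  (isOpen_discrete {j}).preimage (D3_cont_apply i)

private theorem D3_eval (i : ℕ) : Continuous (fun p : (ℕ → ℕ) × (ℕ → ℕ) => p.1 (p.2 i)) := by
  rw [continuous_discrete_rng]
  intro j
  have : (fun p : (ℕ → ℕ) × (ℕ → ℕ) => p.1 (p.2 i)) ⁻¹' {j} =
      ⋃ k : ℕ, ({p : (ℕ → ℕ) × (ℕ → ℕ) | p.2 i = k} ∩ {p | p.1 k = j}) := by
    ext p
    simp
  rw [this]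
  refine isOpen_iUnion fun k => IsOpen.inter ?_ ?_
  · exact (isOpen_discrete ({k} : Set ℕ)).preimage
      (show Continuous (fun p : (ℕ → ℕ) × (ℕ → ℕ) => p.2 i) from
        (continuous_apply i).comp continuous_snd)
  · exact (isOpen_discrete ({j} : Set ℕ)).preimage
      (show Continuous (fun p : (ℕ → ℕ) × (ℕ → ℕ) => p.1 k) from
        (continuous_apply k).comp continuous_fst)

private theorem D3_inv : Continuous (fun σ : Equiv.Perm ℕ => σ⁻¹) := by
  rw [D3_emb.continuous_iff]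
  refine continuous_pi fun i => ?_
  rw [continuous_discrete_rng]
  intro j
  have : (fun σ : Equiv.Perm ℕ => ((fun σ : Equiv.Perm ℕ => (σ : ℕ → ℕ)) ∘ fun σ => σ⁻¹) σ i) ⁻¹'
      {j} = {σ | σ j = i} := by
    ext σ
    simp only [mem_preimage, Function.comp, mem_singleton_iff]
    exact Equiv.Perm.inv_eq_iff_eq.trans eq_comm
  rw [this]
  exact D3_open j i

/-- Module D3. The group `S_∞`. -/
theorem perm_group : IsTopologicalGroup (Equiv.Perm ℕ) := by
  refine { continuous_mul := ?_, continuous_inv := D3_inv }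
  rw [D3_emb.continuous_iff]
  refine continuous_pi fun i => ?_
  exact (D3_eval i).comp ((D3_cont.comp continuous_fst).prodMk (D3_cont.comp continuous_snd))

theorem perm_polish : PolishSpace (Equiv.Perm ℕ) := by
  have h1 : IsClosed {p : (ℕ → ℕ) × (ℕ → ℕ) | ∀ i, p.1 (p.2 i) = i ∧ p.2 (p.1 i) = i} := by
    have : {p : (ℕ → ℕ) × (ℕ → ℕ) | ∀ i, p.1 (p.2 i) = i ∧ p.2 (p.1 i) = i} =
        ⋂ i, ({p | p.1 (p.2 i) = i} ∩ {p | p.2 (p.1 i) = i}) := by
      ext p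
      simp
    rw [this]
    refine isClosed_iInter fun i => IsClosed.inter ?_ ?_
    · exact isClosed_eq (D3_eval i) continuous_const
    · exact isClosed_eq ((D3_eval i).comp continuous_swap) continuous_const
  have h2 : IsEmbedding (fun σ : Equiv.Perm ℕ => ((σ : ℕ → ℕ), ((σ⁻¹ : Equiv.Perm ℕ) : ℕ → ℕ))) := by
    refine IsEmbedding.of_comp (g := Prod.fst) ?_ continuous_fst D3_emb
    exact D3_cont.prodMk (D3_cont.comp D3_inv)
  have h3 : range (fun σ : Equiv.Perm ℕ => ((σ : ℕ → ℕ), ((σ⁻¹ : Equiv.Perm ℕ) : ℕ → ℕ))) =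
      {p : (ℕ → ℕ) × (ℕ → ℕ) | ∀ i, p.1 (p.2 i) = i ∧ p.2 (p.1 i) = i} := by
    ext p
    constructor
    · rintro ⟨σ, rfl⟩ i
      simp
    · intro hp
      refine ⟨⟨p.1, p.2, fun i => (hp i).2, fun i => (hp i).1⟩, ?_⟩
      rfl
  exact (IsClosedEmbedding.polishSpace ⟨h2, h3 ▸ h1⟩ :)

theorem perm_isOpen_cyl (n : ℕ) (s : ℕ → ℕ) :
    IsOpen {σ : Equiv.Perm ℕ | ∀ i < n, σ i = s i} := by
  have := (PiNat.isOpen_cylinder (E := fun _ => ℕ) s n).preimage D3_cont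
  exact this

theorem perm_basis {U : Set (Equiv.Perm ℕ)} (hU : IsOpen U) {σ : Equiv.Perm ℕ} (hσ : σ ∈ U) :
    ∃ n : ℕ, {τ : Equiv.Perm ℕ | ∀ i < n, τ i = σ i} ⊆ U := by
  obtain ⟨V, hV, rfl⟩ := D3_emb.isInducing.isOpen_iff.1 hU
  obtain ⟨_, ⟨y, m, rfl⟩, hβ, hsub⟩ :=
    (PiNat.isTopologicalBasis_cylinders (E := fun _ : ℕ => ℕ)).exists_subset_of_mem_open hσ hV
  refine ⟨m, fun τ hτ => hsub ?_⟩
  intro i hi
  have h1 : τ i = σ i := hτ i hi
  have h2 : σ i = y i := hβ i hi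
  exact h1.trans h2

end KakC
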