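import Pool.Agent.Helper8.Kak.DefsD

/-!
# `ℓ¹` and its action on `ℝ^ℕ` (module D4, problem MP_013a6c_an)
-/

open MeasureTheory Set Topology Filter
open scoped symmDiff ENNReal ProbabilityTheory

namespace KakC

theorem gl_coe_continuous : Continuous (fun g : Gl => (g : ℕ → ℝ)) :=
  (lp.uniformContinuous_coe (E := fun _ : ℕ => ℝ) (p := 1)).continuous

/-- Module D4. `ℓ¹` is Polish, and acts continuously, with dense orbits. -/
theorem gl_polish : PolishSpace Gl := by
  have h1 : TopologicalSpace.IsSeparable (univ : Set Gl) := by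
    have h2 : TopologicalSpace.IsSeparable
        (closure (Submodule.span ℝ (range fun k : ℕ => (lp.single 1 k (1 : ℝ) : Gl)) : Set Gl)) :=
      ((countable_range _).isSeparable.span).closure
    refine h2.mono ?_
    intro g _
    have h3 := lp.hasSum_single (E := fun _ : ℕ => ℝ) (p := 1) ENNReal.one_ne_top g
    refine mem_closure_of_tendsto h3 (Eventually.of_forall fun s => ?_)
    refine Submodule.sum_mem _ fun i _ => ?_
    have h4 : (lp.single 1 i (g i) : Gl) = (g i) • (lp.single 1 i (1 : ℝ) : Gl) := by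
      rw [← lp.single_smul]
      simp
    rw [h4]
    exact Submodule.smul_mem _ _ (Submodule.subset_span ⟨i, rfl⟩)
  have : TopologicalSpace.SeparableSpace Gl := TopologicalSpace.isSeparable_univ_iff.1 h1
  have : SecondCountableTopology Gl := UniformSpace.secondCountable_of_separable Gl
  infer_instance

theorem gl_dense (x : ℕ → ℝ) {U : Set (ℕ → ℝ)} (hU : IsOpen U) (hne : U.Nonempty) :
    ∃ g : Gl, x + (g : ℕ → ℝ) ∈ U := by
  obtain ⟨y, hy⟩ := hne
  rw [isOpen_pi_iff] at hU
  obtain ⟨I, u, hu, hsub⟩ := hU y hy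
  refine ⟨∑ i ∈ I, (lp.single 1 i (y i - x i) : Gl), hsub ?_⟩
  intro i hi
  have h1 : ((∑ i ∈ I, (lp.single 1 i (y i - x i) : Gl) : Gl) : ℕ → ℝ) i = y i - x i := by
    rw [lp.coeFn_sum, Finset.sum_apply, Finset.sum_eq_single_of_mem i hi]
    · simp
    · intro j _ hj
      rw [lp.single_apply_ne _ _ _ hj.symm]
  rw [Pi.add_apply, h1]
  simpa using (hu i hi).2

/-- the map `(x, g) ↦ x + g` is continuous and open; the second form is used with
`tendsto_residual_of_isOpenMap` -/
theorem gl_add_residual {P : (ℕ → ℝ) → Prop} (hP : ∀ᶠ x in residual (ℕ → ℝ), P x) :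
    ∀ᶠ p in residual ((ℕ → ℝ) × Gl), P (p.1 + (p.2 : ℕ → ℝ)) := by
  let e : ((ℕ → ℝ) × Gl) ≃ₜ ((ℕ → ℝ) × Gl) :=
    { toFun := fun p => (p.1 + (p.2 : ℕ → ℝ), p.2)
      invFun := fun p => (p.1 - (p.2 : ℕ → ℝ), p.2)
      left_inv := fun p => by simp
      right_inv := fun p => by simp
      continuous_toFun :=
        (continuous_fst.add (gl_coe_continuous.comp continuous_snd)).prodMk continuous_snd
      continuous_invFun :=
        (continuous_fst.sub (gl_coe_continuous.comp continuous_snd)).prodMk continuous_snd }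
  have h1 : Tendsto (fun p : (ℕ → ℝ) × Gl => (e p).1) (residual ((ℕ → ℝ) × Gl))
      (residual (ℕ → ℝ)) :=
    tendsto_residual_of_isOpenMap (continuous_fst.comp e.continuous)
      (isOpenMap_fst.comp e.isOpenMap)
  exact h1.eventually hP

/-- every open set of `ℕ → ℝ` around `x` contains a convex open set around `x` -/
theorem exists_convex {U : Set (ℕ → ℝ)} (hU : IsOpen U) {x : ℕ → ℝ} (hx : x ∈ U) :
    ∃ V ⊆ U, IsOpen V ∧ x ∈ V ∧ Convex ℝ V := by
  obtain ⟨S, ⟨hS1, hS2⟩, hS3⟩ :=
    (LocallyConvexSpace.convex_basis (𝕜 := ℝ) x).mem_iff.1 (hU.mem_nhds hx)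
  exact ⟨interior S, interior_subset.trans hS3, isOpen_interior, mem_interior_iff_mem_nhds.2 hS1,
    hS2.interior⟩

end KakC
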